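import Pool.Agent.Q318.VN.Main

set_option autoImplicit false

/-!
# MP_354fda: local v-numbers of the binomial edge ideals of crown graphs

For the crown graph `G = C_{n,n}`, `n ≥ 4`, and every cut set `T`, no polynomial of degree at most
three has colon ideal `J_G : f = P_T(G)`; so all local v-numbers of `J_G` are at least (hence, by
the known upper bound, equal to) four.

Proof: if `J_G : f = P_T`, then `f` lies in all the other primes `P_{T'}`. Modulo `J_G` one can
write `f` as a combination of standard monomials, and for each standard monomial `m` of degree at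
most three there is a cut set `T' ≠ T` such that `m` is separated from all other standard monomials
by the monomial parametrisation of `P_{T'}`. So `f` is in `J_G`, a contradiction.
-/

namespace Pool.Agent.Results.MP_354fda_al.LocalVNumbers

open MvPolynomial

universe u

/-- The polynomial `x_v y_w - x_w y_v`, where `x_v = X (v, false)` and `y_v = X (v, true)`. -/
noncomputable def binomial (K : Type u) [Field K] {V : Type} (v w : V) :
    MvPolynomial (V × Bool) K :=
  X (v, false) * X (w, true) - X (w, false) * X (v, true)

/-- The binomial edge ideal `J_G`, generated by the `x_v y_w - x_w y_v` for the edges `vw`. -/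
noncomputable def binomialEdgeIdeal (K : Type u) [Field K] {V : Type} (G : SimpleGraph V) :
    Ideal (MvPolynomial (V × Bool) K) :=
  Ideal.span {p | ∃ v w, G.Adj v w ∧ p = binomial K v w}

/-- The ideal `P_T(G)`: generated by the variables `x_v, y_v` of the vertices `v` in `T` and by the
polynomials `x_v y_w - x_w y_v` for the vertices `v`, `w` outside `T` which lie in the same
connected component of `G - T`. -/
noncomputable def primeOfCut (K : Type u) [Field K] {V : Type} (G : SimpleGraph V) (T : Set V) :
    Ideal (MvPolynomial (V × Bool) K) :=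
  Ideal.span ({p | ∃ v ∈ T, ∃ b, p = X (v, b)} ∪
    {p | ∃ v w : (Tᶜ : Set V), (G.induce Tᶜ).Reachable v w ∧ p = binomial K (v : V) (w : V)})

/-- The crown graph `C_{n,n}`: `(false, i)` is the `i`-th vertex of `X` and `(true, j)` is the
`j`-th vertex of `Y`; they are adjacent if `i ≠ j`. -/
def crown (n : ℕ) : SimpleGraph (Bool × Fin n) where
  Adj u v := u.1 ≠ v.1 ∧ u.2 ≠ v.2
  symm := ⟨fun _ _ h => ⟨h.1.symm, h.2.symm⟩⟩
  loopless := ⟨fun _ h => h.1 rfl⟩

/-- The cut sets of the crown graph for `n ≥ 4`: the empty set; `X` and `Y`; `X` and `Y` without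
one vertex; the complements of the sets `{X_i, X_j, Y_i, Y_j}`, `i ≠ j`. -/
def cutSets (n : ℕ) : Set (Set (Bool × Fin n)) :=
  {T | T = ∅ ∨ (∃ s, T = {v | v.1 = s}) ∨ (∃ s i, T = {v | v.1 = s ∧ v.2 ≠ i}) ∨
    ∃ i j, i ≠ j ∧ T = {v | v.2 ≠ i ∧ v.2 ≠ j}}

/-- For all fields `K`, all `n ≥ 4`, all cut sets `T` of the crown graph `G = C_{n,n}` and all
polynomials `f`: if `J_G : f = P_T(G)`, then the degree of `f` is at least `4`. -/
theorem result (K : Type u) [Field K] (n : ℕ) (hn : 4 ≤ n) (T : Set (Bool × Fin n))
    (hT : T ∈ cutSets n) (f : MvPolynomial ((Bool × Fin n) × Bool) K)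
    (hf : ∀ h, h * f ∈ binomialEdgeIdeal K (crown n) ↔ h ∈ primeOfCut K (crown n) T) :
    4 ≤ f.totalDegree := by
  by_contra hd
  exact Pool.Agent.Q318.VN.main hn hT f (by omega) hf

end Pool.Agent.Results.MP_354fda_al.LocalVNumbers
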